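import Mathlib
import Pool.Agent.H.MP_df7c80_co.A

set_option autoImplicit false

namespace Pool.Agent.Results.MP_df7c80_co.No

open Pool.Agent.H.MP_0fee77_co

theorem result :
    (∃ G : SimpleGraph (Fin 15), Sat G {l | 4 ≤ l ∧ l % 3 = 1} ∧ G.edgeSet.ncard = 17) ∧
    ¬ ∀ n : ℕ, 1 ≤ n → (sat n {l | 4 ≤ l ∧ l % 3 = 1} : ℤ) = ⌈(5 * (n : ℚ)) / 4 - 3 / 2⌉ := by
  have h1 := Pool.Agent.H.MP_df7c80_co.sat_G
  have h2 : Pool.Agent.H.MP_df7c80_co.G.edgeSet.ncard = 17 := by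
    rw [← SimpleGraph.coe_edgeFinset, Set.ncard_coe_finset, Pool.Agent.H.MP_df7c80_co.c3]
  refine ⟨⟨_, h1, h2⟩, fun h => ?_⟩
  have h3 : sat 15 {l | 4 ≤ l ∧ l % 3 = 1} ≤ 17 := Nat.sInf_le ⟨_, h1, h2⟩
  have h4 := h 15 (by norm_num)
  have h5 : (17 : ℤ) < ⌈(5 * ((15 : ℕ) : ℚ)) / 4 - 3 / 2⌉ := by
    rw [Int.lt_ceil]; norm_num
  omega

end Pool.Agent.Results.MP_df7c80_co.No
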